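import Pool.Agent.Helper36.SPR.St

/-!
# Project SPR (MP_343216_nt), module CQ: counting good elements modulo `p q`
-/

set_option autoImplicit false

namespace Pool.Agent.Helper28.SPR

open Finset
open scoped Pointwise
open Pool.Agent.Helper36.SPR

theorem cqCrt {p q : ℕ} [NeZero p] [NeZero q] (hp : p.Prime) (hq : q.Prime) (h : p ≠ q)
    (x : ZMod (p * q)) (h1 : (ZMod.castHom (dvd_mul_right p q) (ZMod p)) x = 0)
    (h2 : (ZMod.castHom (dvd_mul_left q p) (ZMod q)) x = 0) : x = 0 := by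
  have e : x = ((x.val : ℕ) : ZMod (p * q)) := by
    rw [ZMod.natCast_val, ZMod.cast_id]
  rw [e] at h1 h2 ⊢
  rw [map_natCast, ZMod.natCast_eq_zero_iff] at h1 h2
  rw [ZMod.natCast_eq_zero_iff]
  exact ((Nat.coprime_primes hp hq).2 h).mul_dvd_of_dvd_of_dvd h1 h2

/-- Cauchy-Schwarz for collisions -/
theorem cqCS {α β : Type} [DecidableEq α] [DecidableEq β] (P : Finset α) (Y : Finset β) (f : α → β)
    (h : ∀ x ∈ P, f x ∈ Y) :
    ((P.card : ℕ)) ^ 2 ≤ Y.card * ((P ×ˢ P).filter (fun x => f x.1 = f x.2)).card := by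
  have h1 := Finset.card_eq_sum_card_fiberwise (s := P) (t := Y) (f := f) h
  have h2 : ((P ×ˢ P).filter (fun x => f x.1 = f x.2)).card
      = ∑ y ∈ Y, (P.filter (fun a => f a = y)).card ^ 2 := by
    rw [Finset.card_eq_sum_card_fiberwise (s := (P ×ˢ P).filter (fun x => f x.1 = f x.2)) (t := Y)
      (f := fun x => f x.1)]
    · apply Finset.sum_congr rfl
      intro y _
      rw [sq, ← Finset.card_product]
      congr 1
      ext ⟨a, b⟩
      simp only [mem_filter, mem_product]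
      constructor
      · rintro ⟨⟨⟨ha, hb⟩, he⟩, hy⟩
        exact ⟨⟨ha, hy⟩, hb, he ▸ hy⟩
      · rintro ⟨⟨ha, hy⟩, hb, hy'⟩
        exact ⟨⟨⟨ha, hb⟩, hy.trans hy'.symm⟩, hy⟩
    · intro x hx
      simp only [coe_filter, Set.mem_setOf_eq, mem_product] at hx
      exact h _ hx.1.1
  rw [h2]
  conv_lhs => rw [h1]
  exact sq_sum_le_card_mul_sum_sq

/-- pairs of pairs -/
theorem cqPair {α : Type} [DecidableEq α] (S : Finset α) (R : α → α → Prop)
    [∀ a b, Decidable (R a b)] :
    (((S ×ˢ S) ×ˢ (S ×ˢ S)).filter (fun x => R x.1.1 x.2.1 ∧ R x.1.2 x.2.2)).card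
      ≤ ((S ×ˢ S).filter (fun x => R x.1 x.2)).card ^ 2 := by
  rw [sq, ← Finset.card_product]
  apply Finset.card_le_card_of_injOn (fun x => ((x.1.1, x.2.1), (x.1.2, x.2.2)))
  · rintro ⟨⟨a, b⟩, ⟨c, d⟩⟩ hx
    simp only [coe_filter, Set.mem_setOf_eq, mem_product] at hx
    simp only [coe_product, coe_filter, Set.mem_prod, Set.mem_setOf_eq, mem_product]
    tauto
  · rintro ⟨⟨a, b⟩, ⟨c, d⟩⟩ _ ⟨⟨a', b'⟩, ⟨c', d'⟩⟩ _ he
    simp only [Prod.mk.injEq] at he ⊢
    tauto

/-- number of elements with given residue -/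
theorem cqFib {p q : ℕ} [NeZero p] [NeZero q] (hp : p.Prime) (hq : q.Prime) (h : p ≠ q)
    (D : Finset (ZMod (p * q)))
    (hD : ∀ c ∈ D, ∀ c' ∈ D, (ZMod.castHom (dvd_mul_right p q) (ZMod p)) c
      = (ZMod.castHom (dvd_mul_right p q) (ZMod p)) c') : D.card ≤ q := by
  have := Finset.card_le_card_of_injOn (s := D) (t := (Finset.univ : Finset (ZMod q)))
    (fun c => (ZMod.castHom (dvd_mul_left q p) (ZMod q)) c) (fun _ _ => Finset.mem_coe.2 (Finset.mem_univ _))
    (fun c hc c' hc' he => by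
      have := cqCrt hp hq h (c - c') (by rw [map_sub, hD c hc c' hc', sub_self])
        (by rw [map_sub, sub_eq_zero]; exact he)
      exact sub_eq_zero.1 this)
  rwa [Finset.card_univ, ZMod.card] at this

theorem cqFib' {p q : ℕ} [NeZero p] [NeZero q] (hp : p.Prime) (hq : q.Prime) (h : p ≠ q)
    (D : Finset (ZMod (p * q)))
    (hD : ∀ c ∈ D, ∀ c' ∈ D, (ZMod.castHom (dvd_mul_left q p) (ZMod q)) c
      = (ZMod.castHom (dvd_mul_left q p) (ZMod q)) c') : D.card ≤ p := by
  have := Finset.card_le_card_of_injOn (s := D) (t := (Finset.univ : Finset (ZMod p)))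
    (fun c => (ZMod.castHom (dvd_mul_right p q) (ZMod p)) c) (fun _ _ => Finset.mem_coe.2 (Finset.mem_univ _))
    (fun c hc c' hc' he => by
      have := cqCrt hp hq h (c - c') (by rw [map_sub, sub_eq_zero]; exact he)
        (by rw [map_sub, hD c hc c' hc', sub_self])
      exact sub_eq_zero.1 this)
  rwa [Finset.card_univ, ZMod.card] at this

/-- the pointwise bound -/
theorem cqPt {p q : ℕ} [NeZero p] [NeZero q] (hp : p.Prime) (hq : q.Prime) (h : p ≠ q)
    (D : Finset (ZMod (p * q))) (u1 v1 u2 v2 : ZMod (p * q)) :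
    (D.filter (fun c => u1 + c * v1 = u2 + c * v2)).card ≤
      (if u1 = u2 ∧ v1 = v2 then D.card else 0) + 1 +
      (if (ZMod.cast u1 : ZMod q) = ZMod.cast u2 ∧ (ZMod.cast v1 : ZMod q) = ZMod.cast v2
        then q else 0) +
      (if (ZMod.cast u1 : ZMod p) = ZMod.cast u2 ∧ (ZMod.cast v1 : ZMod p) = ZMod.cast v2
        then p else 0) := by
  set E := D.filter (fun c => u1 + c * v1 = u2 + c * v2) with hE
  set P := ZMod.castHom (dvd_mul_right p q) (ZMod p) with hP
  set Q := ZMod.castHom (dvd_mul_left q p) (ZMod q) with hQ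
  have eP : ∀ x : ZMod (p * q), (ZMod.cast x : ZMod p) = P x := fun x => rfl
  have eQ : ∀ x : ZMod (p * q), (ZMod.cast x : ZMod q) = Q x := fun x => rfl
  simp only [eP, eQ]
  haveI : Fact p.Prime := ⟨hp⟩
  haveI : Fact q.Prime := ⟨hq⟩
  have hEm : ∀ c ∈ E, u1 - u2 = c * (v2 - v1) := by
    intro c hc
    have := (Finset.mem_filter.1 hc).2
    linear_combination this
  rcases Finset.eq_empty_or_nonempty E with h0 | ⟨c0, hc0⟩
  · rw [h0]; simp
  by_cases hv : v1 = v2
  · have hu : u1 = u2 := by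
      have := hEm c0 hc0
      rw [hv, sub_self, mul_zero, sub_eq_zero] at this
      exact this
    rw [if_pos ⟨hu, hv⟩]
    have : E.card ≤ D.card := Finset.card_le_card (Finset.filter_subset _ _)
    omega
  · have hcc : ∀ c ∈ E, ∀ c' ∈ E, (c - c') * (v2 - v1) = 0 := by
      intro c hc c' hc'
      have h1 := hEm c hc
      have h2 := hEm c' hc'
      linear_combination h2 - h1
    by_cases h1 : P (v2 - v1) = 0
    · by_cases h2 : Q (v2 - v1) = 0
      · exact absurd (sub_eq_zero.1 (cqCrt hp hq h _ h1 h2)).symm hv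
      · -- determined modulo q
        have hc : E.card ≤ p := by
          apply cqFib' hp hq h
          intro c hc c' hc'
          have := congrArg Q (hcc c hc c' hc')
          rw [map_mul, map_zero, map_sub] at this
          rcases mul_eq_zero.1 this with h3 | h3
          · exact sub_eq_zero.1 h3
          · exact absurd h3 h2
        have hvp : P v1 = P v2 := by
          rw [map_sub, sub_eq_zero] at h1; exact h1.symm
        have hup : P u1 = P u2 := by
          have := congrArg P (hEm c0 hc0)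
          rw [map_mul, h1, mul_zero, map_sub, sub_eq_zero] at this
          exact this
        rw [if_pos (⟨hup, hvp⟩ : P u1 = P u2 ∧ P v1 = P v2)]
        omega
    · by_cases h2 : Q (v2 - v1) = 0
      · have hc : E.card ≤ q := by
          apply cqFib hp hq h
          intro c hc c' hc'
          have := congrArg P (hcc c hc c' hc')
          rw [map_mul, map_zero, map_sub] at this
          rcases mul_eq_zero.1 this with h3 | h3
          · exact sub_eq_zero.1 h3
          · exact absurd h3 h1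
        have hvp : Q v1 = Q v2 := by
          rw [map_sub, sub_eq_zero] at h2; exact h2.symm
        have hup : Q u1 = Q u2 := by
          have := congrArg Q (hEm c0 hc0)
          rw [map_mul, h2, mul_zero, map_sub, sub_eq_zero] at this
          exact this
        rw [if_pos (⟨hup, hvp⟩ : Q u1 = Q u2 ∧ Q v1 = Q v2)]
        omega
      · have hc : E.card ≤ 1 := by
          rw [Finset.card_le_one]
          intro c hc c' hc'
          have e1 := congrArg P (hcc c hc c' hc')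
          have e2 := congrArg Q (hcc c hc c' hc')
          rw [map_mul, map_zero] at e1 e2
          have e1' := (mul_eq_zero.1 e1).resolve_right h1
          have e2' := (mul_eq_zero.1 e2).resolve_right h2
          exact sub_eq_zero.1 (cqCrt hp hq h _ e1' e2')
        omega

theorem hCQ : StCQ := by
  intro p q _ _ hp hq hpq S L M hL hM hLS hMS hap haq hpM hqM D hD
  classical
  have hne : p ≠ q := hpq.ne
  set s : ℕ := S.card with hs
  have hs0 : (0 : ℝ) < s := by linarith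
  set N : ZMod (p * q) → ℕ := fun c => (((S ×ˢ S) ×ˢ (S ×ˢ S)).filter
    (fun x => ((x.1.1 : ZMod (p * q))) + c * (x.1.2 : ZMod (p * q))
      = (x.2.1 : ZMod (p * q)) + c * (x.2.2 : ZMod (p * q)))).card with hN
  have key1 : ∀ c ∈ D, (s : ℝ) ^ 3 ≤ L * (N c : ℝ) := by
    intro c hc
    have h1 := cqCS (S ×ˢ S) (vl S + dil c (vl S))
      (fun x => ((x.1 : ZMod (p * q))) + c * (x.2 : ZMod (p * q))) (by
        rintro ⟨u, v⟩ hx
        rw [Finset.mem_product] at hx
        apply Finset.add_mem_add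
        · exact Finset.mem_image.2 ⟨u, hx.1, rfl⟩
        · exact Finset.mem_image.2 ⟨(v : ZMod (p * q)), Finset.mem_image.2 ⟨v, hx.2, rfl⟩, rfl⟩)
    rw [Finset.card_product] at h1
    have h2 : ((s : ℝ) * s) ^ 2 ≤ ((vl S + dil c (vl S)).card : ℝ) * (N c : ℝ) := by
      exact_mod_cast h1
    have h3 : ((vl S + dil c (vl S)).card : ℝ) * (N c : ℝ) ≤ L * s * (N c : ℝ) :=
      mul_le_mul_of_nonneg_right (hD c hc) (Nat.cast_nonneg _)
    have h4 : (s : ℝ) * (s : ℝ) ^ 3 ≤ s * (L * (N c : ℝ)) := by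
      calc (s : ℝ) * (s : ℝ) ^ 3 = ((s : ℝ) * s) ^ 2 := by ring
        _ ≤ L * s * (N c : ℝ) := h2.trans h3
        _ = s * (L * (N c : ℝ)) := by ring
    exact le_of_mul_le_mul_left h4 hs0
  have key2 : ∑ c ∈ D, N c ≤ s ^ 2 * D.card + s ^ 4 + q * (agr q S) ^ 2 + p * (agr p S) ^ 2 := by
    have e1 : ∑ c ∈ D, N c = ∑ x ∈ (S ×ˢ S) ×ˢ (S ×ˢ S), (D.filter (fun c =>
        ((x.1.1 : ZMod (p * q))) + c * (x.1.2 : ZMod (p * q))
      = (x.2.1 : ZMod (p * q)) + c * (x.2.2 : ZMod (p * q)))).card := by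
      simp only [hN, Finset.card_filter]
      rw [Finset.sum_comm]
    rw [e1]
    calc _ ≤ ∑ x ∈ (S ×ˢ S) ×ˢ (S ×ˢ S), ((if (x.1.1 = x.2.1 ∧ x.1.2 = x.2.2) then D.card else 0) + 1 +
        (if (ZMod.cast (x.1.1 : ZMod (p * q)) : ZMod q) = ZMod.cast (x.2.1 : ZMod (p * q)) ∧
            (ZMod.cast (x.1.2 : ZMod (p * q)) : ZMod q) = ZMod.cast (x.2.2 : ZMod (p * q)) then q else 0) +
        (if (ZMod.cast (x.1.1 : ZMod (p * q)) : ZMod p) = ZMod.cast (x.2.1 : ZMod (p * q)) ∧
            (ZMod.cast (x.1.2 : ZMod (p * q)) : ZMod p) = ZMod.cast (x.2.2 : ZMod (p * q)) then p else 0)) := by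
          apply Finset.sum_le_sum
          intro x _
          have := cqPt hp hq hne D (x.1.1 : ZMod (p * q)) (x.1.2 : ZMod (p * q))
            (x.2.1 : ZMod (p * q)) (x.2.2 : ZMod (p * q))
          simpa only [Units.val_inj] using this
      _ ≤ _ := by
          rw [Finset.sum_add_distrib, Finset.sum_add_distrib, Finset.sum_add_distrib]
          have a1 : ∑ x ∈ (S ×ˢ S) ×ˢ (S ×ˢ S), (if (x.1.1 = x.2.1 ∧ x.1.2 = x.2.2) then D.card else 0)
              ≤ s ^ 2 * D.card := by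
            rw [← Finset.sum_filter, Finset.sum_const, smul_eq_mul]
            apply Nat.mul_le_mul_right
            refine (cqPair S (fun a b => a = b)).trans ?_
            apply Nat.pow_le_pow_left
            refine (Finset.card_le_card_of_injOn (t := S) (fun x => x.1) ?_ ?_)
            · intro x hx
              simp only [coe_filter, Set.mem_setOf_eq, mem_product] at hx
              exact hx.1.1
            · rintro ⟨a, b⟩ hx ⟨a', b'⟩ hx' he
              simp only [coe_filter, Set.mem_setOf_eq, mem_product] at hx hx'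
              simp only at he
              rw [Prod.mk.injEq]
              exact ⟨he, hx.2 ▸ hx'.2 ▸ he⟩
          have a2 : ∑ x ∈ (S ×ˢ S) ×ˢ (S ×ˢ S), 1 = s ^ 4 := by
            rw [Finset.sum_const, smul_eq_mul, mul_one, Finset.card_product, Finset.card_product]
            ring
          have a3 : ∑ x ∈ (S ×ˢ S) ×ˢ (S ×ˢ S),
              (if (ZMod.cast (x.1.1 : ZMod (p * q)) : ZMod q) = ZMod.cast (x.2.1 : ZMod (p * q)) ∧
            (ZMod.cast (x.1.2 : ZMod (p * q)) : ZMod q) = ZMod.cast (x.2.2 : ZMod (p * q)) then q else 0)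
              ≤ q * (agr q S) ^ 2 := by
            rw [← Finset.sum_filter, Finset.sum_const, smul_eq_mul, mul_comm]
            apply Nat.mul_le_mul_left
            exact cqPair S (fun a b => (ZMod.cast (a : ZMod (p * q)) : ZMod q)
              = ZMod.cast (b : ZMod (p * q)))
          have a4 : ∑ x ∈ (S ×ˢ S) ×ˢ (S ×ˢ S),
              (if (ZMod.cast (x.1.1 : ZMod (p * q)) : ZMod p) = ZMod.cast (x.2.1 : ZMod (p * q)) ∧
            (ZMod.cast (x.1.2 : ZMod (p * q)) : ZMod p) = ZMod.cast (x.2.2 : ZMod (p * q)) then p else 0)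
              ≤ p * (agr p S) ^ 2 := by
            rw [← Finset.sum_filter, Finset.sum_const, smul_eq_mul, mul_comm]
            apply Nat.mul_le_mul_left
            exact cqPair S (fun a b => (ZMod.cast (a : ZMod (p * q)) : ZMod p)
              = ZMod.cast (b : ZMod (p * q)))
          omega
  have key3 : (D.card : ℝ) * (s : ℝ) ^ 3 ≤ L * ∑ c ∈ D, (N c : ℝ) := by
    rw [Finset.mul_sum, ← nsmul_eq_mul, ← Finset.sum_const]
    exact Finset.sum_le_sum key1
  have key4 : ∑ c ∈ D, (N c : ℝ) ≤ (s : ℝ) ^ 2 * D.card + (s : ℝ) ^ 4 + q * (agr q S : ℝ) ^ 2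
      + p * (agr p S : ℝ) ^ 2 := by
    exact_mod_cast key2
  have hp0 : (0 : ℝ) ≤ p := Nat.cast_nonneg _
  have hq0 : (0 : ℝ) ≤ q := Nat.cast_nonneg _
  have b1 : (q : ℝ) * (agr q S : ℝ) ^ 2 ≤ M ^ 4 * (s : ℝ) ^ 3 := by
    have h1 : (q : ℝ) ≤ M ^ 2 * s := by
      calc (q : ℝ) ≤ M * p := hqM
        _ ≤ M * (M * s) := mul_le_mul_of_nonneg_left hpM (by linarith)
        _ = M ^ 2 * s := by ring
    have h2 : (agr q S : ℝ) ^ 2 ≤ (M * s) ^ 2 := pow_le_pow_left₀ (Nat.cast_nonneg _) haq 2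
    calc (q : ℝ) * (agr q S : ℝ) ^ 2 ≤ (M ^ 2 * s) * (M * s) ^ 2 :=
          mul_le_mul h1 h2 (by positivity) (by positivity)
      _ = M ^ 4 * (s : ℝ) ^ 3 := by ring
  have b2 : (p : ℝ) * (agr p S : ℝ) ^ 2 ≤ M ^ 4 * (s : ℝ) ^ 3 := by
    have h2 : (agr p S : ℝ) ^ 2 ≤ (M * s) ^ 2 := pow_le_pow_left₀ (Nat.cast_nonneg _) hap 2
    calc (p : ℝ) * (agr p S : ℝ) ^ 2 ≤ (M * s) * (M * s) ^ 2 :=
          mul_le_mul hpM h2 (by positivity) (by positivity)
      _ = M ^ 3 * (s : ℝ) ^ 3 := by ring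
      _ ≤ M ^ 4 * (s : ℝ) ^ 3 :=
          mul_le_mul_of_nonneg_right (pow_le_pow_right₀ hM (by norm_num)) (by positivity)
  have hD0 : (0 : ℝ) ≤ D.card := Nat.cast_nonneg _
  -- |D| s^3 ≤ L (s^2 |D| + s^4 + 2 M^4 s^3)
  have c1 : (D.card : ℝ) * (s : ℝ) ^ 3 ≤ L * ((s : ℝ) ^ 2 * D.card + (s : ℝ) ^ 4
      + 2 * (M ^ 4 * (s : ℝ) ^ 3)) :=
    key3.trans (mul_le_mul_of_nonneg_left (by linarith) hL.le)
  have c2 : L * ((s : ℝ) ^ 2 * D.card) ≤ (s : ℝ) ^ 3 * D.card / 2 := by
    have : L ≤ (s : ℝ) / 2 := by linarith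
    calc L * ((s : ℝ) ^ 2 * D.card) ≤ (s : ℝ) / 2 * ((s : ℝ) ^ 2 * D.card) :=
          mul_le_mul_of_nonneg_right this (by positivity)
      _ = (s : ℝ) ^ 3 * D.card / 2 := by ring
  have c3 : L * (2 * (M ^ 4 * (s : ℝ) ^ 3)) ≤ L * (s : ℝ) ^ 4 := by
    apply mul_le_mul_of_nonneg_left _ hL.le
    calc 2 * (M ^ 4 * (s : ℝ) ^ 3) = (2 * M ^ 4) * (s : ℝ) ^ 3 := by ring
      _ ≤ s * (s : ℝ) ^ 3 := mul_le_mul_of_nonneg_right hMS (by positivity)
      _ = (s : ℝ) ^ 4 := by ring
  have c4 : (s : ℝ) ^ 3 * (D.card : ℝ) ≤ (s : ℝ) ^ 3 * (4 * L * s) := by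
    nlinarith [c1, c2, c3]
  exact le_of_mul_le_mul_left c4 (by positivity)

end Pool.Agent.Helper28.SPR
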