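import Pool.Agent.Helper36.SPR.St5

/-!
# Project SPR3 (MP_343216_nt), module PCA: averages of periodic functions
-/

set_option autoImplicit false

namespace Pool.Agent.Helper28.SPR

open Finset
open Pool.Agent.Helper36.SPR

/-- number of `x < N` with residue `r` modulo `t` -/
noncomputable def pcaCn (N t r : ℕ) : ℝ := ∑ x : Fin N, if (x : ℕ) % t = r then (1 : ℝ) else 0

theorem pcaCn_eq (N t r : ℕ) (hr : r < t) :
    pcaCn N t r = ((N / t + if r < N % t then 1 else 0 : ℕ) : ℝ) := by
  have ht : 0 < t := by omega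
  have h1 : pcaCn N t r = ((Nat.count (fun x => x ≡ r [MOD t]) N : ℕ) : ℝ) := by
    unfold pcaCn
    rw [Nat.count_eq_card_filter_range, Finset.card_filter, Nat.cast_sum,
      Finset.sum_range]
    apply Finset.sum_congr rfl
    intro x _
    have : ((x : ℕ) % t = r) ↔ ((x : ℕ) ≡ r [MOD t]) := by
      unfold Nat.ModEq
      rw [Nat.mod_eq_of_lt hr]
    by_cases h : (x : ℕ) % t = r
    · rw [if_pos h, if_pos (this.1 h)]
      simp
    · rw [if_neg h, if_neg (fun h' => h (this.2 h'))]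
      simp
  rw [h1, Nat.count_modEq_card _ ht, Nat.mod_eq_of_lt hr]

theorem pcaCn_close (N t r : ℕ) (hN : 0 < N) (hr : r < t) :
    |pcaCn N t r / N - 1 / t| ≤ 1 / N := by
  have ht : 0 < t := by omega
  have hNR : (0 : ℝ) < N := by exact_mod_cast hN
  have htR : (0 : ℝ) < t := by exact_mod_cast ht
  rw [pcaCn_eq N t r hr]
  have h1 : ((N / t : ℕ) : ℝ) * t ≤ N := by exact_mod_cast Nat.div_mul_le_self N t
  have h2 : (N : ℝ) ≤ (((N / t : ℕ) : ℝ) + 1) * t := by
    have := (Nat.lt_div_mul_add (a := N) ht).le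
    have h3 : N ≤ (N / t + 1) * t := by linarith [this, Nat.add_mul (N / t) 1 t]
    exact_mod_cast h3
  have h4 : |((N / t + if r < N % t then 1 else 0 : ℕ) : ℝ) - N / t| ≤ 1 := by
    have h5 : ((N / t : ℕ) : ℝ) ≤ N / t := by rwa [le_div_iff₀ htR]
    have h6 : (N : ℝ) / t ≤ ((N / t : ℕ) : ℝ) + 1 := by rwa [div_le_iff₀ htR]
    rw [abs_le]
    split_ifs
    · push_cast
      constructor <;> linarith
    · push_cast
      constructor <;> linarith
  have h7 : ((N / t + if r < N % t then 1 else 0 : ℕ) : ℝ) / N - 1 / t =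
      (((N / t + if r < N % t then 1 else 0 : ℕ) : ℝ) - N / t) / N := by
    rw [sub_div, div_div, mul_comm (t : ℝ) N, ← div_div, div_self hNR.ne']
  rw [h7, abs_div, abs_of_pos hNR]
  exact div_le_div_of_nonneg_right h4 hNR.le

theorem pcaCn_exact (W t r : ℕ) (hW : 0 < W) (htW : t ∣ W) (hr : r < t) :
    pcaCn W t r / W = 1 / t := by
  have ht : 0 < t := by omega
  have hWR : (0 : ℝ) < W := by exact_mod_cast hW
  have htR : (0 : ℝ) < t := by exact_mod_cast ht
  rw [pcaCn_eq W t r hr, Nat.mod_eq_zero_of_dvd htW, if_neg (Nat.not_lt_zero r), add_zero,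
    Nat.cast_div htW htR.ne']
  field_simp

/-- the average as an integral over the residues -/
theorem pcaAv (N t k : ℕ) (ht : 0 < t) (g : (Fin k → ℕ) → ℝ)
    (hg : ∀ v v' : Fin k → ℕ, (∀ i, v i ≡ v' i [MOD t]) → g v = g v') :
    Av N k g = ∑ r : Fin k → Fin t, g (fun i => (r i : ℕ)) * ∏ i, (pcaCn N t (r i) / N) := by
  unfold Av
  rw [Finset.sum_div]
  have e1 : ∀ r : Fin k → Fin t, g (fun i => (r i : ℕ)) * ∏ i, (pcaCn N t (r i) / N) =
      ∑ v : Fin k → Fin N, (g (fun i => (r i : ℕ)) *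
        ∏ i, (if (v i : ℕ) % t = r i then (1 : ℝ) else 0)) / (N : ℝ) ^ k := by
    intro r
    rw [← Finset.sum_div, ← Finset.mul_sum, Finset.prod_div_distrib, Finset.prod_const,
      Finset.card_univ, Fintype.card_fin, mul_div_assoc]
    congr 2
    unfold pcaCn
    rw [Finset.prod_univ_sum, Fintype.piFinset_univ]
  rw [Finset.sum_congr rfl (fun r _ => e1 r), Finset.sum_comm]
  apply Finset.sum_congr rfl
  intro v _
  rw [← Finset.sum_div]
  congr 1
  set ρ : Fin k → Fin t := fun i => ⟨(v i : ℕ) % t, Nat.mod_lt _ ht⟩ with hρ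
  rw [Finset.sum_eq_single ρ]
  · have : ∏ i, (if (v i : ℕ) % t = (ρ i : ℕ) then (1 : ℝ) else 0) = 1 := by
      apply Finset.prod_eq_one
      intro i _
      rw [if_pos rfl]
    rw [this, mul_one]
    apply hg
    intro i
    exact (Nat.mod_modEq _ _).symm
  · intro r _ hr
    have : ∃ i, r i ≠ ρ i := by
      by_contra h
      push Not at h
      exact hr (funext h)
    obtain ⟨i, hi⟩ := this
    have h0 : (∏ i, (if (v i : ℕ) % t = (r i : ℕ) then (1 : ℝ) else 0)) = 0 := by
      apply Finset.prod_eq_zero (Finset.mem_univ i)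
      rw [if_neg]
      intro h
      apply hi
      apply Fin.ext
      exact h.symm
    rw [h0, mul_zero]
  · intro h
    exact absurd (Finset.mem_univ _) h

/-- telescoping for product weights -/
theorem pcaTel (t : ℕ) (a b : Fin t → ℝ) (ha : ∀ r, 0 ≤ a r) (hb : ∀ r, 0 ≤ b r)
    (sa : ∑ r, a r = 1) (sb : ∑ r, b r = 1) (k : ℕ) :
    ∑ r : Fin k → Fin t, |∏ i, a (r i) - ∏ i, b (r i)| ≤ k * ∑ r, |a r - b r| := by
  have hprod : ∀ k : ℕ, ∑ r : Fin k → Fin t, ∏ i, b (r i) = 1 := by
    intro k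
    have := (Finset.prod_univ_sum (fun _ : Fin k => (Finset.univ : Finset (Fin t)))
      (fun _ x => b x)).symm
    rw [Fintype.piFinset_univ] at this
    rw [this, sb]
    simp
  induction k with
  | zero => simp
  | succ k ih =>
    have e1 : ∑ r : Fin (k + 1) → Fin t, |∏ i, a (r i) - ∏ i, b (r i)| =
        ∑ x : Fin t, ∑ r : Fin k → Fin t, |a x * ∏ i, a (r i) - b x * ∏ i, b (r i)| := by
      rw [← Fintype.sum_prod_type', ← (Fin.consEquiv (fun _ : Fin (k + 1) => Fin t)).sum_comp]
      apply Finset.sum_congr rfl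
      intro p _
      simp only [Fin.consEquiv_apply, Fin.prod_univ_succ, Fin.cons_zero, Fin.cons_succ]
    rw [e1]
    have e2 : ∀ x : Fin t, ∑ r : Fin k → Fin t, |a x * ∏ i, a (r i) - b x * ∏ i, b (r i)| ≤
        a x * (k * ∑ r, |a r - b r|) + |a x - b x| := by
      intro x
      calc ∑ r : Fin k → Fin t, |a x * ∏ i, a (r i) - b x * ∏ i, b (r i)|
          ≤ ∑ r : Fin k → Fin t, (a x * |∏ i, a (r i) - ∏ i, b (r i)| +
              |a x - b x| * ∏ i, b (r i)) := by
            apply Finset.sum_le_sum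
            intro r _
            have hB : 0 ≤ ∏ i, b (r i) := Finset.prod_nonneg (fun i _ => hb _)
            have e3 : a x * ∏ i, a (r i) - b x * ∏ i, b (r i) =
                a x * (∏ i, a (r i) - ∏ i, b (r i)) + (a x - b x) * ∏ i, b (r i) := by ring
            rw [e3]
            refine (abs_add_le _ _).trans ?_
            rw [abs_mul, abs_mul, abs_of_nonneg (ha x), abs_of_nonneg hB]
        _ = a x * ∑ r : Fin k → Fin t, |∏ i, a (r i) - ∏ i, b (r i)| + |a x - b x| := by
            rw [Finset.sum_add_distrib, ← Finset.mul_sum, ← Finset.mul_sum, hprod k, mul_one]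
        _ ≤ _ := by
            have := mul_le_mul_of_nonneg_left ih (ha x)
            linarith
    calc _ ≤ ∑ x : Fin t, (a x * (k * ∑ r, |a r - b r|) + |a x - b x|) :=
          Finset.sum_le_sum (fun x _ => e2 x)
      _ = ((k + 1 : ℕ) : ℝ) * ∑ r, |a r - b r| := by
          rw [Finset.sum_add_distrib, ← Finset.sum_mul, sa]
          push_cast
          ring

theorem pcaSum (N t : ℕ) (hN : 0 < N) (ht : 0 < t) :
    ∑ r : Fin t, pcaCn N t r / N = 1 := by
  have hNR : (0 : ℝ) < N := by exact_mod_cast hN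
  rw [← Finset.sum_div]
  unfold pcaCn
  rw [Finset.sum_comm]
  have : ∀ x : Fin N, ∑ r : Fin t, (if (x : ℕ) % t = (r : ℕ) then (1 : ℝ) else 0) = 1 := by
    intro x
    rw [Finset.sum_eq_single (⟨(x : ℕ) % t, Nat.mod_lt _ ht⟩ : Fin t)]
    · rw [if_pos rfl]
    · intro r _ hr
      rw [if_neg]
      intro h
      exact hr (Fin.ext h.symm)
    · intro h
      exact absurd (Finset.mem_univ _) h
  rw [Finset.sum_congr rfl (fun x _ => this x), Finset.sum_const, Finset.card_univ,
    Fintype.card_fin, nsmul_eq_mul, mul_one]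
  exact div_self hNR.ne'

/-- one periodic function -/
theorem pcaOne (k W t N : ℕ) (hW : 0 < W) (hN : 0 < N) (ht : 0 < t) (htW : t ∣ W)
    (g : (Fin k → ℕ) → ℝ) (hg01 : ∀ v, 0 ≤ g v ∧ g v ≤ 1)
    (hg : ∀ v v' : Fin k → ℕ, (∀ i, v i ≡ v' i [MOD t]) → g v = g v') :
    |Av N k g - Av W k g| ≤ k * t / N := by
  have hNR : (0 : ℝ) < N := by exact_mod_cast hN
  rw [pcaAv N t k ht g hg, pcaAv W t k ht g hg, ← Finset.sum_sub_distrib]
  have h0 : ∀ (M r : ℕ), 0 ≤ pcaCn M t r / M := by
    intro M r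
    unfold pcaCn
    apply div_nonneg _ (Nat.cast_nonneg _)
    apply Finset.sum_nonneg
    intro x _
    split_ifs <;> norm_num
  calc |∑ r : Fin k → Fin t, (g (fun i => (r i : ℕ)) * ∏ i, (pcaCn N t (r i) / N) -
          g (fun i => (r i : ℕ)) * ∏ i, (pcaCn W t (r i) / W))|
      ≤ ∑ r : Fin k → Fin t, |∏ i, (pcaCn N t (r i) / N) - ∏ i, (pcaCn W t (r i) / W)| := by
        refine (Finset.abs_sum_le_sum_abs _ _).trans (Finset.sum_le_sum ?_)
        intro r _
        rw [← mul_sub, abs_mul]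
        have h1 := hg01 (fun i => (r i : ℕ))
        rw [abs_of_nonneg h1.1]
        exact mul_le_of_le_one_left (abs_nonneg _) h1.2
    _ ≤ k * ∑ r : Fin t, |pcaCn N t r / N - pcaCn W t r / W| :=
        pcaTel t (fun r => pcaCn N t r / N) (fun r => pcaCn W t r / W) (fun r => h0 N r)
          (fun r => h0 W r) (pcaSum N t hN ht) (pcaSum W t hW ht) k
    _ ≤ k * ∑ _r : Fin t, (1 / N : ℝ) := by
        apply mul_le_mul_of_nonneg_left _ (Nat.cast_nonneg _)
        apply Finset.sum_le_sum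
        intro r _
        rw [pcaCn_exact W t r hW htW r.2]
        exact pcaCn_close N t r hN r.2
    _ = k * t / N := by
        rw [Finset.sum_const, Finset.card_univ, Fintype.card_fin, nsmul_eq_mul]
        ring

theorem pcaLin (N k m : ℕ) (c : Fin m → ℝ) (g : Fin m → (Fin k → ℕ) → ℝ)
    (F : (Fin k → ℕ) → ℝ) (hF : ∀ v, F v = ∑ l, c l * g l v) :
    Av N k F = ∑ l, c l * Av N k (g l) := by
  unfold Av
  simp only [hF]
  rw [Finset.sum_comm, Finset.sum_div]
  apply Finset.sum_congr rfl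
  intro l _
  rw [← Finset.mul_sum, mul_div_assoc]

theorem hPCA : StPCA := by
  intro k W T N C F hW hN hPC
  obtain ⟨m, c, g, t, h1, h2, h3⟩ := hPC
  have hNR : (0 : ℝ) < N := by exact_mod_cast hN
  rw [pcaLin N k m c g F h3, pcaLin W k m c g F h3, ← Finset.sum_sub_distrib]
  calc |∑ l, (c l * Av N k (g l) - c l * Av W k (g l))|
      ≤ ∑ l, |c l| * (k * T / N) := by
        refine (Finset.abs_sum_le_sum_abs _ _).trans (Finset.sum_le_sum ?_)
        intro l _
        obtain ⟨ht0, htT, htW, h01, hper⟩ := h1 l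
        rw [← mul_sub, abs_mul]
        apply mul_le_mul_of_nonneg_left _ (abs_nonneg _)
        refine (pcaOne k W (t l) N hW hN ht0 htW (g l) h01 hper).trans ?_
        apply div_le_div_of_nonneg_right _ hNR.le
        apply mul_le_mul_of_nonneg_left _ (Nat.cast_nonneg _)
        exact_mod_cast htT
    _ = (∑ l, |c l|) * (k * T / N) := by rw [Finset.sum_mul]
    _ ≤ C * (k * T / N) := mul_le_mul_of_nonneg_right h2 (by positivity)
    _ = k * C * T / N := by ring

end Pool.Agent.Helper28.SPR
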