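import Pool.Agent.Helper36.SPR.St4
import Pool.Agent.Helper9.SPR.M_ST

/-!
# Project SPR3, module ST3 (structure theorem, powers of an arbitrary element)
-/

set_option autoImplicit false

namespace Pool.Agent.Helper28.SPR

open Finset
open scoped Pointwise
open Pool.Agent.Helper36.SPR
open Pool.Agent.Helper9.SPR (enM_le vl_card)

theorem hST3 (hNA3 : StNA3) (hNB3 : StNB3) (hPS3 : StPS3) (hBA : StBA) (hBM : StBM)
    (hAE3 : StAE3) (hLV : StLV) : StST3 := by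
  intro n T _ th hT hTh j K hj hK hb hη
  have hK0 : (0 : ℝ) < K := by linarith
  have hK1 : (1 : ℝ) ≤ K := by linarith
  set b := betv n T th j with hbdef
  have hn0 : (0 : ℝ) < n := by exact_mod_cast Nat.pos_of_ne_zero (NeZero.ne n)
  obtain ⟨hA1, hA2, -, -⟩ := hNA3 n T th hT j
  obtain ⟨-, -, hB1, hB2, hB3, -, -⟩ := hNB3 n T th hT j
  have hb0 : 0 < b := lt_of_lt_of_le (by positivity) hB2
  -- level set
  classical
  set A : Finset ((ZMod n)ˣ) := univ.filter (fun u => b / (32 * K) ≤ nuv n T th j (u : ZMod n)) with hAdef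
  have hLV' := hLV n (nuv n T th j) b K hA1 hB3 hA2 hb0 hK1
  have hρ : b / K ≤ ∑ x : ZMod n, (∑ g : ZMod n, ∑ g' : ZMod n,
      if g * g' = x then nuv n T th j g * nuv n T th j g' else 0) ^ 2 := by
    have h := hPS3 n T th hT hTh j hj
    have h' : b / K ≤ betv n T th (4 * j ^ 2) := by
      rw [div_le_iff₀ hK0]; linarith
    exact h'.trans h
  obtain ⟨hA3, hA4⟩ := hLV' hρ hη A (by intro u; simp [hAdef])
  have hAcard0 : (0 : ℝ) < enM A := by
    by_contra hcon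
    have : (enM A : ℝ) ≤ 0 := not_lt.mp hcon
    have h8 : 8 * K * b ^ 3 * (enM A : ℝ) ≤ 0 := by
      have : 0 ≤ 8 * K * b ^ 3 := by positivity
      nlinarith
    linarith
  have henM : (enM A : ℝ) ≤ (A.card : ℝ) ^ 3 := by exact_mod_cast enM_le A
  have hAc : (0 : ℝ) < A.card := by
    by_contra hcon
    have h0 : (A.card : ℝ) = 0 := le_antisymm (not_lt.mp hcon) (by positivity)
    rw [h0] at henM
    norm_num at henM
    have : (enM A : ℝ) = 0 := by exact_mod_cast henM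
    linarith
  have hAne : A.Nonempty := by
    rw [← Finset.card_pos]; exact_mod_cast hAc
  -- lower bound for |A|
  have hAlow : 1 ≤ 2 * K * b * A.card := by
    by_contra hcon
    have hlt : 2 * K * b * (A.card : ℝ) < 1 := not_le.mp hcon
    have h3 : (2 * K * b * (A.card : ℝ)) ^ 3 < 1 := by
      have h0 : 0 ≤ 2 * K * b * (A.card : ℝ) := by positivity
      have := pow_lt_one₀ h0 hlt (n := 3) (by norm_num)
      exact this
    have h4 : 8 * K * b ^ 3 * (enM A : ℝ) ≤ (2 * K * b * (A.card : ℝ)) ^ 3 := by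
      calc 8 * K * b ^ 3 * (enM A : ℝ) ≤ 8 * K * b ^ 3 * (A.card : ℝ) ^ 3 :=
            mul_le_mul_of_nonneg_left henM (by positivity)
        _ ≤ 8 * K ^ 3 * b ^ 3 * (A.card : ℝ) ^ 3 := by
            have : K ≤ K ^ 3 := by nlinarith [sq_nonneg K, mul_pos hK0 hK0]
            have h5 : 0 ≤ b ^ 3 * (A.card : ℝ) ^ 3 := by positivity
            nlinarith
        _ = _ := by ring
    linarith
  -- BM
  have hcube : (A.card : ℝ) ^ 3 ≤ (2 ^ 18 * K ^ 4) * enM A := by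
    have h1 : ((A.card : ℝ) * b) ^ 3 ≤ (32 * K) ^ 3 := pow_le_pow_left₀ (by positivity) hA4 3
    have h2 : (A.card : ℝ) ^ 3 * b ^ 3 ≤ 2 ^ 15 * K ^ 3 := by nlinarith
    have h3 : (A.card : ℝ) ^ 3 * b ^ 3 ≤ 2 ^ 15 * K ^ 3 * (8 * K * b ^ 3 * enM A) := by
      refine h2.trans ?_
      have : 0 ≤ 2 ^ 15 * K ^ 3 := by positivity
      nlinarith
    have hb3 : 0 < b ^ 3 := by positivity
    have h4 : (A.card : ℝ) ^ 3 * b ^ 3 ≤ ((2 ^ 18 * K ^ 4) * enM A) * b ^ 3 := by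
      refine h3.trans (le_of_eq ?_); ring
    exact le_of_mul_le_mul_right h4 hb3
  have hK4 : (1 : ℝ) ≤ K ^ 4 := one_le_pow₀ hK1
  have hK9 : (1 : ℝ) ≤ K ^ 9 := one_le_pow₀ hK1
  obtain ⟨A1, hA1A, hA1c, hA1d⟩ := hBM ((ZMod n)ˣ) A (2 ^ 18 * K ^ 4) hAne
    (by nlinarith) hcube
  have hA1low : 1 ≤ 2 ^ 22 * K ^ 5 * b * A1.card := by
    have h0 : 0 ≤ 2 * K * b := by positivity
    calc (1 : ℝ) ≤ 2 * K * b * A.card := hAlow
      _ ≤ 2 * K * b * (8 * (2 ^ 18 * K ^ 4) * A1.card) := mul_le_mul_of_nonneg_left hA1c h0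
      _ = _ := by ring
  have hA1c0 : (0 : ℝ) < A1.card := by
    by_contra hcon
    have h0 : (A1.card : ℝ) = 0 := le_antisymm (not_lt.mp hcon) (by positivity)
    rw [h0] at hA1low
    norm_num at hA1low
  -- AE
  have hsum : (A1.card : ℝ) * (b / (32 * K)) ≤ ∑ x ∈ vl A1, nuv n T th j x := by
    have h1 : ∑ x ∈ vl A1, nuv n T th j x = ∑ u ∈ A1, nuv n T th j (u : ZMod n) := by
      unfold vl
      rw [Finset.sum_image]
      intro u _ v _ huv
      exact Units.ext huv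
    rw [h1, ← nsmul_eq_mul]
    refine Finset.card_nsmul_le_sum A1 _ _ ?_
    intro u hu
    have := hA1A hu
    simp only [hAdef, mem_filter] at this
    exact this.2
  have hAE' := hAE3 n T th hT j (vl A1)
  have hen : (A1.card : ℝ) ^ 3 ≤ (2 ^ 42 * K ^ 9) * enA (vl A1) := by
    have h0 : 0 ≤ (A1.card : ℝ) * (b / (32 * K)) := by positivity
    have h1 : ((A1.card : ℝ) * (b / (32 * K))) ^ 4 ≤ b ^ 3 * enA (vl A1) :=
      (pow_le_pow_left₀ h0 hsum 4).trans hAE'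
    have h2 : (A1.card : ℝ) ^ 4 * b ^ 4 ≤ 2 ^ 20 * K ^ 4 * (b ^ 3 * enA (vl A1)) := by
      have h3 : ((A1.card : ℝ) * (b / (32 * K))) ^ 4 = (A1.card : ℝ) ^ 4 * b ^ 4 / (2 ^ 20 * K ^ 4) := by
        field_simp
        ring
      rw [h3, div_le_iff₀ (by positivity)] at h1
      linarith
    have hb3 : 0 < b ^ 3 := by positivity
    have h4 : (A1.card : ℝ) ^ 4 * b ≤ 2 ^ 20 * K ^ 4 * enA (vl A1) := by
      have h5 : ((A1.card : ℝ) ^ 4 * b) * b ^ 3 ≤ (2 ^ 20 * K ^ 4 * enA (vl A1)) * b ^ 3 := by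
        calc ((A1.card : ℝ) ^ 4 * b) * b ^ 3 = (A1.card : ℝ) ^ 4 * b ^ 4 := by ring
          _ ≤ _ := h2
          _ = _ := by ring
      exact le_of_mul_le_mul_right h5 hb3
    have h6 : (A1.card : ℝ) ^ 3 ≤ (2 ^ 22 * K ^ 5) * ((A1.card : ℝ) ^ 4 * b) := by
      have h7 : 0 ≤ (A1.card : ℝ) ^ 3 := by positivity
      nlinarith [mul_le_mul_of_nonneg_left hA1low h7]
    calc (A1.card : ℝ) ^ 3 ≤ (2 ^ 22 * K ^ 5) * ((A1.card : ℝ) ^ 4 * b) := h6
      _ ≤ (2 ^ 22 * K ^ 5) * (2 ^ 20 * K ^ 4 * enA (vl A1)) :=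
          mul_le_mul_of_nonneg_left h4 (by positivity)
      _ = _ := by ring
  have hvlne : (vl A1).Nonempty := by
    rw [← Finset.card_pos, vl_card]; exact_mod_cast hA1c0
  obtain ⟨S', hS'A, hS'c, hS'd⟩ := hBA (ZMod n) (vl A1) (2 ^ 42 * K ^ 9) hvlne
    (by nlinarith) (by rw [vl_card]; exact hen)
  rw [vl_card] at hS'c
  set S : Finset ((ZMod n)ˣ) := A1.filter (fun u => (u : ZMod n) ∈ S') with hSdef
  have hvS : vl S = S' := by
    ext x
    unfold vl
    simp only [hSdef, mem_image, mem_filter]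
    constructor
    · rintro ⟨u, ⟨-, hu⟩, rfl⟩; exact hu
    · intro hx
      have := hS'A hx
      unfold vl at this
      simp only [mem_image] at this
      obtain ⟨u, hu, rfl⟩ := this
      exact ⟨u, ⟨hu, hx⟩, rfl⟩
  have hSc : S.card = S'.card := by rw [← hvS, vl_card]
  have hSA1 : S ⊆ A1 := filter_subset _ _
  rw [← hSc] at hS'c hS'd
  rw [← hvS] at hS'd
  have hp : ∀ a c : ℕ, (2 : ℝ) ^ a * K ^ c ≤ K ^ (a + c) := by
    intro a c
    rw [pow_add]
    exact mul_le_mul_of_nonneg_right (pow_le_pow_left₀ (by norm_num) hK a) (by positivity)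
  have hmono : ∀ a c : ℕ, a ≤ c → K ^ a ≤ K ^ c := fun a c h => pow_le_pow_right₀ hK1 h
  have hSc0 : (0 : ℝ) ≤ S.card := by positivity
  have hSlow : 1 ≤ 2 ^ 67 * K ^ 14 * (b * S.card) := by
    have h0 : 0 ≤ 2 ^ 22 * K ^ 5 * b := by positivity
    calc (1 : ℝ) ≤ 2 ^ 22 * K ^ 5 * b * A1.card := hA1low
      _ ≤ 2 ^ 22 * K ^ 5 * b * (8 * (2 ^ 42 * K ^ 9) * S.card) :=
          mul_le_mul_of_nonneg_left hS'c h0
      _ = _ := by ring
  refine ⟨S, ?_, ?_, ?_, ?_, ?_, ?_⟩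
  · rw [← Finset.card_pos]
    by_contra hcon
    have h0 : S.card = 0 := by omega
    rw [h0] at hSlow
    norm_num at hSlow
  · refine hS'd.trans ?_
    refine mul_le_mul_of_nonneg_right ?_ hSc0
    calc (2 : ℝ) ^ 14 * (2 ^ 42 * K ^ 9) ^ 4 = 2 ^ 182 * K ^ 36 := by ring
      _ ≤ K ^ (182 + 36) := hp 182 36
      _ = K ^ 218 := by norm_num
  · have h1 : ((S / S).card : ℝ) ≤ (A1 / A1).card := by
      exact_mod_cast Finset.card_le_card (Finset.div_subset_div hSA1 hSA1)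
    calc ((S / S).card : ℝ) ≤ (A1 / A1).card := h1
      _ ≤ 2 ^ 14 * (2 ^ 18 * K ^ 4) ^ 4 * A1.card := hA1d
      _ ≤ 2 ^ 14 * (2 ^ 18 * K ^ 4) ^ 4 * (8 * (2 ^ 42 * K ^ 9) * S.card) :=
          mul_le_mul_of_nonneg_left hS'c (by positivity)
      _ = (2 ^ 131 * K ^ 25) * S.card := by ring
      _ ≤ K ^ (131 + 25) * S.card := mul_le_mul_of_nonneg_right (hp 131 25) hSc0
      _ ≤ K ^ 218 * S.card := mul_le_mul_of_nonneg_right (hmono _ _ (by norm_num)) hSc0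
  · calc (1 : ℝ) ≤ 2 ^ 67 * K ^ 14 * (b * S.card) := hSlow
      _ ≤ K ^ (67 + 14) * (b * S.card) := mul_le_mul_of_nonneg_right (hp 67 14) (by positivity)
      _ = K ^ 81 * b * S.card := by ring
  · have h1 : (S.card : ℝ) ≤ A.card := by
      exact_mod_cast Finset.card_le_card (hSA1.trans hA1A)
    calc (S.card : ℝ) * b ≤ A.card * b := mul_le_mul_of_nonneg_right h1 hb0.le
      _ ≤ 32 * K := hA4
      _ = 2 ^ 5 * K ^ 1 := by ring
      _ ≤ K ^ (5 + 1) := hp 5 1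
      _ = K ^ 6 := by norm_num
  · intro u hu
    have := hA1A (hSA1 hu)
    simp only [hAdef, mem_filter] at this
    have h2 := this.2
    rw [div_le_iff₀ (by positivity)] at h2
    linarith

end Pool.Agent.Helper28.SPR
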